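import Pool.Agent.H2.KM.Targets

set_option autoImplicit false

open Matrix Pool.Agent.H2.NL Pool.Agent.H2.KM

namespace Pool.Agent.H70.KM.Sel

variable {K : Type} [Field K] {I : Type}

theorem sum_vec [Fintype I] (n : ℕ) (f : List I → K) :
    ∑ u : List.Vector I (n + 1), f u.1 = ∑ a, ∑ u : List.Vector I n, f (a :: u.1) := by
  rw [← Fintype.sum_prod_type']
  refine Fintype.sum_equiv
    (⟨fun v => (v.head, v.tail), fun p => p.1 ::ᵥ p.2, fun v => List.Vector.cons_head_tail v,
      fun p => by simp⟩ : List.Vector I (n + 1) ≃ I × List.Vector I n) _ _ ?_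
  intro v
  have h := List.Vector.cons_head_tail v
  conv_lhs => rw [← h]
  rfl

theorem sel_cons (o : I → Bool) (b : I) (v : List I) : sel K o (b :: v) =
    (1, b, v) :: (sel K o v).map fun x => (ks K (o b) (o x.2.1) * x.1, x.2.1, b :: x.2.2) := rfl

theorem sel_one (o : I → Bool) : ∀ w : List I, (sel K o w).length = w.length ∧
    ∀ x ∈ sel K o w, x.1 * x.1 = 1 ∧ (x.2.1 :: x.2.2).Perm w := by
  intro w
  induction w with
  | nil =>
    refine ⟨rfl, fun x hx => ?_⟩
    simp [sel] at hx
  | cons b v ih =>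
    rw [sel_cons]
    refine ⟨by simp [ih.1], fun x hx => ?_⟩
    rw [List.mem_cons] at hx
    rcases hx with rfl | hx
    · exact ⟨one_mul 1, List.Perm.refl _⟩
    · rw [List.mem_map] at hx
      obtain ⟨y, hy, rfl⟩ := hx
      obtain ⟨h1, h2⟩ := ih.2 y hy
      refine ⟨?_, ?_⟩
      · show ks K (o b) (o y.2.1) * y.1 * (ks K (o b) (o y.2.1) * y.1) = 1
        calc _ = (ks K (o b) (o y.2.1) * ks K (o b) (o y.2.1)) * (y.1 * y.1) := by ring
          _ = 1 := by rw [ks_sq, h1, one_mul]
      · exact (List.Perm.swap b y.2.1 y.2.2).trans (h2.cons b)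

theorem sel_two (o : I → Bool) : ∀ (w : List I) (n : ℕ) (h : List I → K), Symm o n h →
    w.length = n → ∀ x ∈ sel K o w, h w = x.1 * h (x.2.1 :: x.2.2) := by
  intro w
  induction w with
  | nil =>
    intro n h _ _ x hx
    simp [sel] at hx
  | cons b v ih =>
    intro n h hs hn x hx
    rw [sel_cons, List.mem_cons] at hx
    rcases hx with rfl | hx
    · exact (one_mul _).symm
    · rw [List.mem_map] at hx
      obtain ⟨y, hy, rfl⟩ := hx
      rw [List.length_cons] at hn
      have hs' : Symm o (n - 1) (fun l => h (b :: l)) := by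
        intro j hj l hl
        have h3 := hs (j + 1) (by omega) (b :: l) (by rw [List.length_cons]; omega)
        exact h3
      have h1 := ih (n - 1) _ hs' (by omega) y hy
      have hp := ((sel_one (K := K) o v).2 y hy).2
      have hlen : (b :: y.2.1 :: y.2.2).length = n := by
        rw [List.length_cons, hp.length_eq]
        omega
      have hv : 2 ≤ n := by
        rw [← hlen]
        simp
      have h2 := hs 0 (by omega) (b :: y.2.1 :: y.2.2) hlen
      have h2' : ks K (o b) (o y.2.1) * h (y.2.1 :: b :: y.2.2) = h (b :: y.2.1 :: y.2.2) := h2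
      show h (b :: v) = ks K (o b) (o y.2.1) * y.1 * h (y.2.1 :: b :: y.2.2)
      have h1' : h (b :: v) = y.1 * h (b :: y.2.1 :: y.2.2) := h1
      rw [h1', ← h2']
      ring

theorem sel_three [Fintype I] (o : I → Bool) : ∀ (n : ℕ) (φ : I → List I → K),
    ∑ w : List.Vector I (n + 1), ((sel K o w.1).map fun x => φ x.2.1 x.2.2).sum =
      (n + 1 : K) * ∑ a, ∑ w : List.Vector I n, φ a w.1 := by
  intro n
  induction n with
  | zero =>
    intro φ
    rw [sum_vec 0 (fun w => ((sel K o w).map fun x => φ x.2.1 x.2.2).sum)]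
    simp only [Nat.cast_zero, zero_add, one_mul]
    refine Finset.sum_congr rfl fun a _ => Finset.sum_congr rfl fun u _ => ?_
    have hu : u.1 = [] := List.eq_nil_of_length_eq_zero u.2
    rw [hu]
    simp [sel]
  | succ n ih =>
    intro φ
    rw [sum_vec (n + 1) (fun w => ((sel K o w).map fun x => φ x.2.1 x.2.2).sum)]
    have e : ∀ (b : I) (u : List.Vector I (n + 1)),
        ((sel K o (b :: u.1)).map fun x => φ x.2.1 x.2.2).sum =
          φ b u.1 + ((sel K o u.1).map fun x => φ x.2.1 (b :: x.2.2)).sum := by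
      intro b u
      rw [sel_cons, List.map_cons, List.sum_cons, List.map_map]
      rfl
    simp only [e, Finset.sum_add_distrib]
    have e2 : ∀ b : I, ∑ u : List.Vector I (n + 1),
        ((sel K o u.1).map fun x => φ x.2.1 (b :: x.2.2)).sum =
        (n + 1 : K) * ∑ a, ∑ w : List.Vector I n, φ a (b :: w.1) := fun b =>
      ih (fun a l => φ a (b :: l))
    simp only [e2]
    rw [← Finset.mul_sum]
    have e3 : ∑ a, ∑ b, ∑ w : List.Vector I n, φ a (b :: w.1) =
        ∑ a, ∑ w : List.Vector I (n + 1), φ a w.1 :=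
      Finset.sum_congr rfl fun a _ => (sum_vec n (φ a)).symm
    have e4 : ∑ b, ∑ a, ∑ w : List.Vector I n, φ a (b :: w.1) =
        ∑ a, ∑ b, ∑ w : List.Vector I n, φ a (b :: w.1) := Finset.sum_comm
    rw [e4, e3]
    push_cast
    ring

end Pool.Agent.H70.KM.Sel

namespace Pool.Agent.H70.KM

theorem pf_SEL : T_SEL := fun _ _ _ _ o =>
  ⟨Sel.sel_one o, fun n h hs w hw => Sel.sel_two o w n h hs hw, Sel.sel_three o⟩

end Pool.Agent.H70.KM
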