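import Pool.Agent.H2.KM.Targets

set_option autoImplicit false

open Matrix Pool.Agent.H2.NL Pool.Agent.H2.KM

namespace Pool.Agent.H70.KM

theorem sum_vec {K : Type} [Field K] {I : Type} [Fintype I] (n : ℕ) (f : List I → K) :
    ∑ u : List.Vector I (n + 1), f u.1 = ∑ a, ∑ u : List.Vector I n, f (a :: u.1) := by
  rw [← Fintype.sum_prod_type']
  refine Fintype.sum_equiv
    (⟨fun v => (v.head, v.tail), fun p => p.1 ::ᵥ p.2, fun v => List.Vector.cons_head_tail v,
      fun p => by simp⟩ : List.Vector I (n + 1) ≃ I × List.Vector I n) _ _ ?_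
  intro v
  have h := List.Vector.cons_head_tail v
  conv_lhs => rw [← h]
  rfl

theorem sum_map {K : Type} [Field K] {I β : Type} [Fintype I] (L : List β) (g : I → K)
    (f : I → β → K) :
    ∑ a, g a * (L.map (f a)).sum = (L.map fun x => ∑ a, g a * f a x).sum := by
  induction L with
  | nil => simp
  | cons x L ih =>
    simp only [List.map_cons, List.sum_cons, mul_add, Finset.sum_add_distrib, ih]

theorem sg_ks {K : Type} [Field K] (p : Bool) : sg K p * ks K p p = 1 := by
  unfold sg ks
  cases p <;> simp

theorem pf_SPT (h1 : T_SEL) (h2 : T_SYL) : T_SPT := by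
  intro K _ I _ _ o n
  induction n with
  | zero =>
    have e : ∀ u : List.Vector I 0, sgw K o u.1 * sp o (1 : Matrix I I K) u.1 u.1 = 1 := by
      intro u
      have hu : u.1 = [] := List.eq_nil_of_length_eq_zero u.2
      rw [hu]
      simp [sgw, sp]
    simp only [e, Finset.range_zero, Finset.prod_empty]
    simp
  | succ n ih =>
    rw [sum_vec n (fun w => sgw K o w * sp o (1 : Matrix I I K) w w), Finset.prod_range_succ, ← ih,
      Finset.sum_comm, Finset.sum_mul]
    refine Finset.sum_congr rfl fun u _ => ?_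
    have hsel := h1 K I o
    have hlen := (hsel.1 u.1).1
    have hsym : Symm o n (fun v => sp o (1 : Matrix I I K) u.1 v) :=
      fun j _ w _ => h2 K I I o 1 u.1 j w
    have hx := hsel.2.1 n _ hsym u.1 u.2
    have e1 : ∀ a : I, sgw K o (a :: u.1) * sp o (1 : Matrix I I K) (a :: u.1) (a :: u.1) =
        sgw K o u.1 * (sg K (o a) * sp o (1 : Matrix I I K) u.1 u.1 +
          sg K (o a) * ((sel K o u.1).map fun x => ks K (o a) (o x.2.1) * x.1 *
            (1 : Matrix I I K) a x.2.1 * sp o (1 : Matrix I I K) u.1 (a :: x.2.2)).sum) := by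
      intro a
      have e2 : sgw K o (a :: u.1) = sg K (o a) * sgw K o u.1 := by simp [sgw]
      have e3 : sp o (1 : Matrix I I K) (a :: u.1) (a :: u.1) =
          sp o (1 : Matrix I I K) u.1 u.1 +
          ((sel K o u.1).map fun x => ks K (o a) (o x.2.1) * x.1 *
            (1 : Matrix I I K) a x.2.1 * sp o (1 : Matrix I I K) u.1 (a :: x.2.2)).sum := by
        rw [sp]
        simp only [sel, List.map_cons, List.map_map, List.sum_cons, Matrix.one_apply_eq, one_mul,
          Function.comp_def]
      rw [e2, e3]
      ring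
    simp only [e1]
    rw [← Finset.mul_sum, Finset.sum_add_distrib, ← Finset.sum_mul, sum_map]
    have e4 : ((sel K o u.1).map fun x => ∑ a, sg K (o a) * (ks K (o a) (o x.2.1) * x.1 *
        (1 : Matrix I I K) a x.2.1 * sp o (1 : Matrix I I K) u.1 (a :: x.2.2))) =
        (sel K o u.1).map fun _ => sp o (1 : Matrix I I K) u.1 u.1 := by
      refine List.map_congr_left fun x hxm => ?_
      rw [Finset.sum_eq_single x.2.1]
      · rw [Matrix.one_apply_eq, mul_one]
        have e5 := hx x hxm
        have e6 : sg K (o x.2.1) * (ks K (o x.2.1) (o x.2.1) * x.1 *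
            sp o (1 : Matrix I I K) u.1 (x.2.1 :: x.2.2)) =
            (sg K (o x.2.1) * ks K (o x.2.1) (o x.2.1)) *
              (x.1 * sp o (1 : Matrix I I K) u.1 (x.2.1 :: x.2.2)) := by ring
        rw [e6, sg_ks, one_mul]
        exact e5.symm
      · intro a _ ha
        rw [Matrix.one_apply_ne ha]
        ring
      · intro h
        exact absurd (Finset.mem_univ _) h
    rw [e4, List.map_const', List.sum_replicate, hlen, u.2, nsmul_eq_mul]
    ring

end Pool.Agent.H70.KM
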